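import Pool.Agent.U920.FA.Closed

/-!
# A closed subgroup of a free Abelian topological group `A(X)` which is a `k_ℝ`-space need not be a
`k_ℝ`-space

The answer to Q2 is negative. The space `X` is the subspace of the Cantor cube `{0,1}^{P(ℕ)}`
consisting of all points whose support has fewer than `𝔠` elements, together with the evaluation
points `e n = (A ↦ [n ∈ A])`, and the closed subgroup is the one generated by the points `e n`. The
same space was used in the starting library for the free topological group `F(X)`
(`MP_02575e_gt.ClosedSubgroupNotKR`, files `Pool/Agent/R816`).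

`A(X)` is a quotient group of `F(X)`, so it is a `k_ℝ`-space since `F(X)` is one. The subgroup `H`
generated by the `e n` is closed, since the other points of `X` are separated from the `e n` by clopen
sets `{z : z A = z Aᶜ}`; it is not discrete; and its compact subsets are finite: they consist of words
of bounded length, and a convergent sequence of such words is mapped to a sequence of nonzero elements by
the homomorphism given by a suitable map of `X` to a finite set, which is constant near the limit.
So the characteristic function of `{0}` is continuous on all compact subsets of `H`, but not on `H`.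
-/

set_option autoImplicit false

open Topology Set

namespace Pool.Agent.Results.MP_ebea7e_gt.FreeAbelianNotKR

/-- A `k_ℝ`-space: every real-valued function which is continuous on each compact subset is
continuous. -/
def KR (Y : Type) [TopologicalSpace Y] : Prop :=
  ∀ f : Y → ℝ, (∀ K : Set Y, IsCompact K → ContinuousOn f K) → Continuous f

/-- `t` is the topology of the free Abelian topological group `A(X)` in the sense of Markov: the
finest group topology on the free Abelian group on the set `X` which induces the original topology
on `X`. -/
def IsMarkov (X : Type) [TopologicalSpace X] (t : TopologicalSpace (FreeAbelianGroup X)) : Prop :=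
  @IsTopologicalAddGroup (FreeAbelianGroup X) t _ ∧
  @IsEmbedding X (FreeAbelianGroup X) _ t FreeAbelianGroup.of ∧
  ∀ s : TopologicalSpace (FreeAbelianGroup X), @IsTopologicalAddGroup (FreeAbelianGroup X) s _ →
    @IsEmbedding X (FreeAbelianGroup X) _ s FreeAbelianGroup.of → t ≤ s

section proof

open Pool.Agent.U920.FA

/-- A Hausdorff topological group is a Tychonoff space. -/
theorem t35_of_t2 (G : Type) [AddGroup G] [TopologicalSpace G] [IsTopologicalAddGroup G]
    [T2Space G] : T35Space G := by
  let _ : UniformSpace G := IsTopologicalAddGroup.rightUniformSpace G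
  exact {}

/-- The space is a subspace of its free Abelian topological group. -/
theorem isEmbedding_gen :
    IsEmbedding (gen : Pool.Agent.R816.ClosedSub.X → ATG Pool.Agent.R816.ClosedSub.X) := by
  let b : Bool → ℤ := fun t => if t then 1 else 0
  let β : Pool.Agent.R816.ClosedSub.X → (Set ℕ → ℤ) := fun x A => b (x.1 A)
  have hβ : Continuous β := continuous_pi fun A =>
    (continuous_of_discreteTopology (f := b)).comp
      ((continuous_apply A).comp continuous_subtype_val)
  let c : ℤ → Bool := fun z => decide (z ≠ 0)
  let d : (Set ℕ → ℤ) → (Set ℕ → Bool) := fun z A => c (z A)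
  have hd : Continuous d := continuous_pi fun A =>
    (continuous_of_discreteTopology (f := c)).comp (continuous_apply A)
  have h : d ∘ β = Subtype.val := by
    funext x A
    cases hx : x.1 A <;> simp [d, β, c, b, hx]
  have hβe : IsEmbedding β := IsEmbedding.of_comp hβ hd (h ▸ IsEmbedding.subtypeVal)
  have h2 : (lift β) ∘ gen = β := funext fun x => lift_gen β x
  exact IsEmbedding.of_comp (continuous_gen _) (lift_continuous hβ) (by rw [h2]; exact hβe)

end proof

/-- **Q2 is disproved**: there is a Tychonoff space `X` for which the free Abelian topological group
`A(X)` is a `k_ℝ`-space with a closed subgroup that is not a `k_ℝ`-space. -/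
theorem result : ∃ (X : Type) (_ : TopologicalSpace X) (t : TopologicalSpace (FreeAbelianGroup X)),
    T35Space X ∧ IsMarkov X t ∧ T35Space (FreeAbelianGroup X) ∧ KR (FreeAbelianGroup X) ∧
    ∃ H : AddSubgroup (FreeAbelianGroup X), IsClosed (H : Set (FreeAbelianGroup X)) ∧ ¬ KR H :=
  ⟨Pool.Agent.R816.ClosedSub.X, inferInstance,
    Pool.Agent.U920.FA.instTop Pool.Agent.R816.ClosedSub.X, inferInstance,
    ⟨inferInstanceAs (IsTopologicalAddGroup (Pool.Agent.U920.FA.ATG Pool.Agent.R816.ClosedSub.X)),
      isEmbedding_gen, fun _ hs he => sInf_le ⟨hs, he.continuous⟩⟩,
    t35_of_t2 (Pool.Agent.U920.FA.ATG Pool.Agent.R816.ClosedSub.X),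
    Pool.Agent.U920.FA.isKR_ATG, Pool.Agent.U920.FA.H, Pool.Agent.U920.FA.isClosed_H,
    Pool.Agent.U920.FA.not_isKR_H⟩

end Pool.Agent.Results.MP_ebea7e_gt.FreeAbelianNotKR
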